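import Mathlib

/-! Modular labellings of the trellis. -/

namespace Pool.Agent.H.MP_bd4c56_lc

/-- `blk p q μ k d i j` is the entry `(i, j)` of the array `M^k_d`, where `μ d a b` is the entry
`(a, b)` of `M^1_d`: the block `(a, b)` of `M^(k+1)_d` is `M^k_(μ d a b)`. -/
def blk {D : Type} (p q : ℕ) (μ : D → ℕ → ℕ → D) : ℕ → D → ℕ → ℕ → D
  | 0, d, _, _ => d
  | k + 1, d, i, j => blk p q μ k (μ d (i / p ^ k) (j / q ^ k)) (i % p ^ k) (j % q ^ k)

/-- Modular labellings. -/
def Modular {D : Type} (T : ℕ → ℕ → D) : Prop :=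
  ∃ p q : ℕ, 2 ≤ p ∧ 2 ≤ q ∧ ∃ (d0 : D) (μ : D → ℕ → ℕ → D), μ d0 0 0 = d0 ∧
    ∀ i j, ∃ K, ∀ k ≥ K, T i j = blk p q μ k d0 i j

def Closed {D : Type} (p q : ℕ) (T : ℕ → ℕ → D) : Prop :=
  ∀ i j i' j', T i j = T i' j' → ∀ a < p, ∀ b < q,
    T (p * i + a) (q * j + b) = T (p * i' + a) (q * j' + b)

theorem div_aux {p i a k : ℕ} (ha : a < p) : (p * i + a) / p ^ (k + 1) = i / p ^ k := by
  rw [pow_succ', ← Nat.div_div_eq_div_mul, Nat.mul_add_div (by omega), Nat.div_eq_of_lt ha,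
    add_zero]

theorem mod_aux {p i a k : ℕ} (ha : a < p) :
    (p * i + a) % p ^ (k + 1) = p * (i % p ^ k) + a := by
  have h1 := Nat.div_add_mod (p * i + a) (p ^ (k + 1))
  have h2 := Nat.div_add_mod i (p ^ k)
  rw [div_aux ha] at h1
  have h3 : p * i = p ^ (k + 1) * (i / p ^ k) + p * (i % p ^ k) := by
    conv_lhs => rw [← h2]
    ring
  omega

theorem blk_succ {D : Type} {p q : ℕ} (μ : D → ℕ → ℕ → D) {a b : ℕ} (ha : a < p) (hb : b < q) :
    ∀ (k : ℕ) (d : D) (i j : ℕ), i < p ^ k → j < q ^ k →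
      blk p q μ (k + 1) d (p * i + a) (q * j + b) = μ (blk p q μ k d i j) a b := by
  intro k
  induction k with
  | zero =>
    intro d i j hi hj
    have h1 : i = 0 := by simpa using hi
    have h2 : j = 0 := by simpa using hj
    subst h1 h2
    simp [blk]
  | succ k ih =>
    intro d i j hi hj
    have hp : 0 < p ^ k := pow_pos (by omega) _
    have hq : 0 < q ^ k := pow_pos (by omega) _
    rw [blk, div_aux ha, div_aux hb, mod_aux ha, mod_aux hb,
      ih _ _ _ (Nat.mod_lt _ hp) (Nat.mod_lt _ hq)]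
    rfl

theorem Modular.closed {D : Type} {T : ℕ → ℕ → D} (h : Modular T) :
    ∃ p q, 2 ≤ p ∧ 2 ≤ q ∧ Closed p q T := by
  obtain ⟨p, q, hp, hq, d0, μ, -, h⟩ := h
  have key : ∀ i j, ∀ a < p, ∀ b < q, T (p * i + a) (q * j + b) = μ (T i j) a b := by
    intro i j a ha b hb
    obtain ⟨K1, h1⟩ := h i j
    obtain ⟨K2, h2⟩ := h (p * i + a) (q * j + b)
    have e1 : i < p ^ (K1 + K2 + i + j) :=
      lt_of_lt_of_le (Nat.lt_pow_self (by omega)) (Nat.pow_le_pow_right (by omega) (by omega))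
    have e2 : j < q ^ (K1 + K2 + i + j) :=
      lt_of_lt_of_le (Nat.lt_pow_self (by omega)) (Nat.pow_le_pow_right (by omega) (by omega))
    rw [h2 (K1 + K2 + i + j + 1) (by omega), h1 (K1 + K2 + i + j) (by omega),
      blk_succ μ ha hb _ _ _ _ e1 e2]
  refine ⟨p, q, hp, hq, fun i j i' j' e a ha b hb => ?_⟩
  rw [key _ _ _ ha _ hb, key _ _ _ ha _ hb, e]

theorem Closed.modular {D : Type} {T : ℕ → ℕ → D} {p q : ℕ} (hp : 2 ≤ p) (hq : 2 ≤ q)
    (h : Closed p q T) : Modular T := by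
  classical
  let μ : D → ℕ → ℕ → D := fun e a b =>
    if h : ∃ ij : ℕ × ℕ, T ij.1 ij.2 = e then T (p * h.choose.1 + a) (q * h.choose.2 + b) else e
  have hμ : ∀ i j, ∀ a < p, ∀ b < q, μ (T i j) a b = T (p * i + a) (q * j + b) := by
    intro i j a ha b hb
    have hh : ∃ ij : ℕ × ℕ, T ij.1 ij.2 = T i j := ⟨(i, j), rfl⟩
    simp only [μ, dif_pos hh]
    exact h _ _ _ _ hh.choose_spec a ha b hb
  have key : ∀ k I J i j, i < p ^ k → j < q ^ k →
      blk p q μ k (T I J) i j = T (p ^ k * I + i) (q ^ k * J + j) := by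
    intro k
    induction k with
    | zero =>
      intro I J i j hi hj
      have h1 : i = 0 := by simpa using hi
      have h2 : j = 0 := by simpa using hj
      subst h1 h2
      simp [blk]
    | succ k ih =>
      intro I J i j hi hj
      have hp' : 0 < p ^ k := pow_pos (by omega) _
      have hq' : 0 < q ^ k := pow_pos (by omega) _
      have e1 : i / p ^ k < p := by
        rw [Nat.div_lt_iff_lt_mul hp']; rwa [pow_succ'] at hi
      have e2 : j / q ^ k < q := by
        rw [Nat.div_lt_iff_lt_mul hq']; rwa [pow_succ'] at hj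
      rw [blk, hμ _ _ _ e1 _ e2, ih _ _ _ _ (Nat.mod_lt _ hp') (Nat.mod_lt _ hq')]
      have h1 := Nat.div_add_mod i (p ^ k)
      have h2 := Nat.div_add_mod j (q ^ k)
      congr 1
      · rw [pow_succ]; nlinarith
      · rw [pow_succ]; nlinarith
  refine ⟨p, q, hp, hq, T 0 0, μ, ?_, fun i j => ⟨i + j, fun k hk => ?_⟩⟩
  · simpa using hμ 0 0 0 (by omega) 0 (by omega)
  · have e1 : i < p ^ k :=
      lt_of_lt_of_le (Nat.lt_pow_self (by omega)) (Nat.pow_le_pow_right (by omega) (by omega))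
    have e2 : j < q ^ k :=
      lt_of_lt_of_le (Nat.lt_pow_self (by omega)) (Nat.pow_le_pow_right (by omega) (by omega))
    rw [key k 0 0 i j e1 e2]
    simp

theorem Closed.pow {D : Type} {T : ℕ → ℕ → D} {p q : ℕ} (hp : 2 ≤ p) (hq : 2 ≤ q)
    (h : Closed p q T) (k : ℕ) : Closed (p ^ k) (q ^ k) T := by
  induction k with
  | zero =>
    intro i j i' j' e a ha b hb
    have h1 : a = 0 := by simpa using ha
    have h2 : b = 0 := by simpa using hb
    subst h1 h2
    simpa using e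
  | succ k ih =>
    intro i j i' j' e a ha b hb
    have e1 : a / p < p ^ k := by
      rw [Nat.div_lt_iff_lt_mul (by omega)]; rwa [pow_succ] at ha
    have e2 : b / q < q ^ k := by
      rw [Nat.div_lt_iff_lt_mul (by omega)]; rwa [pow_succ] at hb
    have := h _ _ _ _ (ih _ _ _ _ e _ e1 _ e2) (a % p) (Nat.mod_lt _ (by omega)) (b % q)
      (Nat.mod_lt _ (by omega))
    have h1 := Nat.div_add_mod a p
    have h2 := Nat.div_add_mod b q
    have f : ∀ (p i a : ℕ), p * (p ^ k * i + a / p) + a % p = p ^ (k + 1) * i + a := by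
      intro p i a
      have := Nat.div_add_mod a p
      rw [pow_succ]; nlinarith
    rwa [f, f, f, f] at this

/-- closedness in quotient form -/
theorem Closed.step {D : Type} {T : ℕ → ℕ → D} {p q : ℕ} (hp : 0 < p) (hq : 0 < q)
    (h : Closed p q T) {i j i' j' : ℕ} (e : T (i / p) (j / q) = T (i' / p) (j' / q))
    (h1 : i % p = i' % p) (h2 : j % q = j' % q) : T i j = T i' j' := by
  have := h _ _ _ _ e (i % p) (Nat.mod_lt _ hp) (j % q) (Nat.mod_lt _ hq)
  rw [Nat.div_add_mod, Nat.div_add_mod, h1, h2, Nat.div_add_mod, Nat.div_add_mod] at this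
  exact this

end Pool.Agent.H.MP_bd4c56_lc
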