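import Pool.Agent.H.MP_bd4c56_lc.A

/-! Every modular labelling is locally determined by a two-valued modular labelling. -/

namespace Pool.Agent.H.MP_bd4c56_lc

theorem back1 {P A i i' a s : ℕ} (hP : 2 ≤ P) (hA : 2 ≤ A) (hi : i = 0 ↔ i' = 0) (ha : a < P)
    (hs : s < A) : ∃ s' < A, (P * i + a + s - 1) / P = i + s' - 1 ∧
      (P * i' + a + s - 1) / P = i' + s' - 1 ∧
      (P * i + a + s - 1) % P = (P * i' + a + s - 1) % P := by
  by_cases h : a + s = 0
  · have h1 : a = 0 := by omega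
    have h2 : s = 0 := by omega
    subst h1 h2
    refine ⟨0, by omega, ?_⟩
    by_cases h0 : i = 0
    · have h0' := hi.1 h0
      subst h0 h0'
      simp
    · have h0' : i' ≠ 0 := fun e => h0 (hi.2 e)
      obtain ⟨k, rfl⟩ := Nat.exists_eq_succ_of_ne_zero h0
      obtain ⟨k', rfl⟩ := Nat.exists_eq_succ_of_ne_zero h0'
      have f : ∀ k : ℕ, P * k.succ + 0 + 0 - 1 = P * k + (P - 1) := by
        intro k; rw [Nat.mul_succ]; omega
      rw [f, f, Nat.mul_add_div (by omega), Nat.mul_add_div (by omega), Nat.mul_add_mod,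
        Nat.mul_add_mod, Nat.div_eq_of_lt (by omega)]
      simp
  · have f : ∀ k : ℕ, P * k + a + s - 1 = P * k + (a + s - 1) := by intro k; omega
    refine ⟨(a + s - 1) / P + 1, ?_, ?_, ?_, ?_⟩
    · have : (a + s - 1) / P < A - 1 := by
        rw [Nat.div_lt_iff_lt_mul (by omega)]
        obtain ⟨A', rfl⟩ : ∃ A', A = A' + 2 := ⟨A - 2, by omega⟩
        have : A' + 2 - 1 = A' + 1 := by omega
        rw [this]
        have : A' ≤ A' * P := Nat.le_mul_of_pos_right _ (by omega)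
        have : (A' + 1) * P = A' * P + P := by ring
        omega
      omega
    · rw [f, Nat.mul_add_div (by omega)]; rfl
    · rw [f, Nat.mul_add_div (by omega)]; rfl
    · rw [f, f, Nat.mul_add_mod, Nat.mul_add_mod]

theorem sync {Q j j' : ℕ} (hQ : 0 < Q) (h : (j' + (Q - j % Q)) % Q = 0) : j % Q = j' % Q := by
  have h1 := Nat.mod_lt j hQ
  have h2 := Nat.mod_lt j' hQ
  have h3 : (j' % Q + (Q - j % Q)) % Q = 0 := by rwa [Nat.mod_add_mod]
  obtain ⟨k, hk⟩ := Nat.dvd_of_mod_eq_zero h3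
  have : k = 1 := by
    rcases k with _ | _ | k
    · omega
    · rfl
    · have : Q * (k + 1 + 1) = Q * k + 2 * Q := by ring
      omega
  subst this
  omega

theorem mod_zero {Q j : ℕ} (hQ : 0 < Q) : (j + (Q - j % Q)) % Q = 0 := by
  have h1 := Nat.mod_lt j hQ
  have h2 := Nat.div_add_mod j Q
  have : j + (Q - j % Q) = Q * (j / Q + 1) := by rw [Nat.mul_succ]; omega
  rw [this, Nat.mul_mod_right]

theorem mod_one {Q j : ℕ} (hQ : 2 ≤ Q) : (j + (Q + 1 - j % Q)) % Q = 1 := by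
  have h1 := Nat.mod_lt j (show 0 < Q by omega)
  have h2 := Nat.div_add_mod j Q
  have : j + (Q + 1 - j % Q) = Q * (j / Q + 1) + 1 := by rw [Nat.mul_succ]; omega
  rw [this, Nat.mul_add_mod, Nat.mod_eq_of_lt (by omega)]

theorem next_blk {Q j b : ℕ} (hb : b < Q) :
    (j + (Q - j % Q + b)) % Q = b ∧ (j + (Q - j % Q + b)) / Q = j / Q + 1 := by
  have h1 := Nat.mod_lt j (show 0 < Q by omega)
  have h2 := Nat.div_add_mod j Q
  have : j + (Q - j % Q + b) = Q * (j / Q + 1) + b := by rw [Nat.mul_succ]; omega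
  rw [this, Nat.mul_add_mod, Nat.mod_eq_of_lt hb, Nat.mul_add_div (by omega),
    Nat.div_eq_of_lt hb]
  simp

theorem fwd {P c i a : ℕ} (hP : 0 < P) (ha : a ≤ c) :
    (i % P + a) / P < c / P + 2 ∧ (i + a) / P = i / P + (i % P + a) / P ∧
      (i + a) % P = (i % P + a) % P := by
  have h1 := Nat.mod_lt i hP
  have h2 := Nat.div_add_mod i P
  refine ⟨?_, ?_, (Nat.mod_add_mod _ _ _).symm⟩
  · have : (i % P + a) / P ≤ (c + P) / P := Nat.div_le_div_right (by omega)
    rw [Nat.add_div_right _ hP] at this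
    omega
  · conv_lhs => rw [← h2, add_assoc, Nat.mul_add_div hP]

theorem capacity {d P Q : ℕ} (hP : 100 * d + 100 ≤ P) (hQ : 100 * d + 100 ≤ Q) :
    d * (((2 * P + 2 * Q) / P + 2) * ((2 * P + 2 * Q) / Q + 2)) ≤ (P - 2) * (Q - 2) := by
  have e1 : (2 * P + 2 * Q) / P = 2 * Q / P + 2 := by
    rw [add_comm, mul_comm 2 P, Nat.add_mul_div_left _ _ (by omega)]
  have e2 : (2 * P + 2 * Q) / Q = 2 * P / Q + 2 := by
    rw [mul_comm 2 Q, Nat.add_mul_div_left _ _ (by omega)]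
  rw [e1, e2]
  have h1 : 2 * Q / P * P ≤ 2 * Q := Nat.div_mul_le_self _ _
  have h2 : 2 * P / Q * Q ≤ 2 * P := Nat.div_mul_le_self _ _
  generalize 2 * Q / P = x at *
  generalize 2 * P / Q = y at *
  have h3 : x * y ≤ 4 := by
    have : x * y * (P * Q) ≤ 4 * (P * Q) := by
      calc x * y * (P * Q) = (x * P) * (y * Q) := by ring
        _ ≤ (2 * Q) * (2 * P) := Nat.mul_le_mul h1 h2
        _ = 4 * (P * Q) := by ring
    exact Nat.le_of_mul_le_mul_right this (Nat.mul_pos (by omega) (by omega))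
  have h4 : x ≤ Q := by nlinarith
  have h5 : y ≤ P := by nlinarith
  obtain ⟨P', rfl⟩ : ∃ P', P = P' + 2 := ⟨P - 2, by omega⟩
  obtain ⟨Q', rfl⟩ : ∃ Q', Q = Q' + 2 := ⟨Q - 2, by omega⟩
  simp only [Nat.add_sub_cancel]
  have h6 : (x + 2 + 2) * (y + 2 + 2) ≤ 5 * P' + 5 * Q' := by nlinarith
  have h7 : 10 * d * P' ≤ P' * Q' := by nlinarith
  have h8 : 10 * d * Q' ≤ P' * Q' := by nlinarith
  calc d * ((x + 2 + 2) * (y + 2 + 2)) ≤ d * (5 * P' + 5 * Q') := Nat.mul_le_mul_left _ h6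
    _ ≤ P' * Q' := by nlinarith

theorem exists_code {D : Type} [Fintype D] {A B m n : ℕ} (h : Fintype.card D * (A * B) ≤ m * n) :
    ∃ code : (Fin A → Fin B → D) → ℕ → ℕ → Bool, ∀ W W',
      (∀ a < m, ∀ b < n, code W a b = code W' a b) → W = W' := by
  classical
  have hc : Fintype.card (Fin A → Fin B → D) ≤ Fintype.card (Fin m → Fin n → Bool) := by
    simp only [Fintype.card_fun, Fintype.card_fin, Fintype.card_bool, ← pow_mul]
    calc Fintype.card D ^ (B * A) ≤ (2 ^ Fintype.card D) ^ (B * A) :=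
          Nat.pow_le_pow_left (Nat.lt_two_pow_self).le _
      _ = 2 ^ (Fintype.card D * (A * B)) := by rw [← pow_mul, mul_comm B A]
      _ ≤ 2 ^ (n * m) := Nat.pow_le_pow_right (by omega) (by rwa [mul_comm n m])
  obtain ⟨f⟩ := Function.Embedding.nonempty_of_card_le hc
  refine ⟨fun W a b => if h : a < m ∧ b < n then f W ⟨a, h.1⟩ ⟨b, h.2⟩ else false,
    fun W W' e => f.injective ?_⟩
  funext a b
  have := e a a.2 b b.2
  simpa [a.2, b.2] using this

theorem exists_bits {D : Type} [Fintype D] {T : ℕ → ℕ → D} (h : Modular T) :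
    ∃ (E : Type) (_ : Fintype E) (T' : ℕ → ℕ → E) (β : E → Bool) (c : ℕ), Modular T' ∧
      ∀ i j i' j', (∀ a b, a + b ≤ c → β (T' (i + a) (j + b)) = β (T' (i' + a) (j' + b))) →
        ∀ a b, a + b ≤ c → T (i + a) (j + b) = T (i' + a) (j' + b) := by
  classical
  obtain ⟨p, q, hp, hq, h0⟩ := h.closed
  set d := Fintype.card D
  have hC := h0.pow hp hq (100 * d + 100)
  have hP : 100 * d + 100 ≤ p ^ (100 * d + 100) := (Nat.lt_pow_self (by omega)).le
  have hQ : 100 * d + 100 ≤ q ^ (100 * d + 100) := (Nat.lt_pow_self (by omega)).le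
  generalize p ^ (100 * d + 100) = P at hC hP
  generalize q ^ (100 * d + 100) = Q at hC hQ
  obtain ⟨c, hc⟩ : ∃ c, c = 2 * P + 2 * Q := ⟨_, rfl⟩
  have hcap := capacity hP hQ
  rw [← hc] at hcap
  obtain ⟨code, hcode⟩ := exists_code (D := D) hcap
  have hP0 : 0 < P := by omega
  have hQ0 : 0 < Q := by omega
  let W : ℕ → ℕ → Fin (c / P + 2) → Fin (c / Q + 2) → D := fun i j s t =>
    T (i + s - 1) (j + t - 1)
  let G : ℕ → ℕ → Bool × Bool × (Fin (c / P + 2) → Fin (c / Q + 2) → D) := fun i j =>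
    (decide (i = 0), decide (j = 0), W i j)
  have hG : Closed P Q G := by
    intro i j i' j' e a ha b hb
    simp only [G, Prod.mk.injEq, decide_eq_decide] at e ⊢
    obtain ⟨e1, e2, e3⟩ := e
    refine ⟨?_, ?_, ?_⟩
    · simp [e1]
    · simp [e2]
    · funext s t
      obtain ⟨s', hs', a1, a2, a3⟩ := back1 (by omega) (Nat.le_add_left _ _) e1 ha s.2
      obtain ⟨t', ht', b1, b2, b3⟩ := back1 (by omega) (Nat.le_add_left _ _) e2 hb t.2
      refine hC.step hP0 hQ0 ?_ a3 b3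
      rw [a1, a2, b1, b2]
      exact congrFun (congrFun e3 ⟨s', hs'⟩) ⟨t', ht'⟩
  let F := fun i j : ℕ => ((⟨i % P, Nat.mod_lt _ hP0⟩ : Fin P), (⟨j % Q, Nat.mod_lt _ hQ0⟩ : Fin Q),
    G (i / P) (j / Q), G i j)
  have hF : Closed P Q F := by
    intro i j i' j' e a ha b hb
    have e4 : G i j = G i' j' := congrArg (fun z => z.2.2.2) e
    simp only [F, Prod.mk.injEq, Nat.mul_add_mod, Nat.mul_add_div hP0,
      Nat.mul_add_div hQ0, Nat.div_eq_of_lt ha, Nat.div_eq_of_lt hb, add_zero, true_and]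
    exact ⟨e4, hG _ _ _ _ e4 a ha b hb⟩
  let bit : ℕ → ℕ → Bool := fun i j => if i % P = 0 ∨ j % Q = 0 then true else
    if i % P = 1 ∨ j % Q = 1 then false else code (W (i / P) (j / Q)) (i % P - 2) (j % Q - 2)
  refine ⟨_, inferInstance, F, fun e => if (e.1 : ℕ) = 0 ∨ (e.2.1 : ℕ) = 0 then true else
    if (e.1 : ℕ) = 1 ∨ (e.2.1 : ℕ) = 1 then false else code e.2.2.1.2.2 (e.1 - 2) (e.2.1 - 2), c,
    hF.modular (by omega) (by omega), fun i j i' j' e => ?_⟩
  have e' : ∀ a b, a + b ≤ c → bit (i + a) (j + b) = bit (i' + a) (j' + b) := e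
  have hi := Nat.mod_lt i hP0
  have hi' := Nat.mod_lt i' hP0
  have hj := Nat.mod_lt j hQ0
  have hj' := Nat.mod_lt j' hQ0
  have s1 : j % Q = j' % Q := by
    have := e' (P + 1 - i' % P) (Q - j % Q) (by omega)
    simp only [bit, mod_zero hQ0, mod_one (show 2 ≤ P by omega), or_true, if_true, true_or,
      one_ne_zero, false_or] at this
    refine sync hQ0 ?_
    by_contra hh
    simp [hh] at this
  have s2 : i % P = i' % P := by
    have := e' (P - i % P) (Q + 1 - j' % Q) (by omega)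
    simp only [bit, mod_zero hP0, mod_one (show 2 ≤ Q by omega), or_true, if_true, true_or,
      one_ne_zero, or_false] at this
    refine sync hP0 ?_
    by_contra hh
    simp [hh] at this
  have s3 : W (i / P + 1) (j / Q + 1) = W (i' / P + 1) (j' / Q + 1) := by
    refine hcode _ _ fun a ha b hb => ?_
    have := e' (P - i % P + (a + 2)) (Q - j % Q + (b + 2)) (by omega)
    obtain ⟨a1, a2⟩ := next_blk (j := i) (show a + 2 < P by omega)
    obtain ⟨b1, b2⟩ := next_blk (j := j) (show b + 2 < Q by omega)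
    obtain ⟨a3, a4⟩ := next_blk (j := i') (show a + 2 < P by omega)
    obtain ⟨b3, b4⟩ := next_blk (j := j') (show b + 2 < Q by omega)
    simp only [bit] at this
    rw [a1, a2, b1, b2, s2, s1, a3, a4, b3, b4] at this
    simpa using this
  intro a b hab
  obtain ⟨a1, a2, a3⟩ := fwd (i := i) hP0 (show a ≤ c by omega)
  obtain ⟨b1, b2, b3⟩ := fwd (i := j) hQ0 (show b ≤ c by omega)
  obtain ⟨-, a5, a6⟩ := fwd (i := i') hP0 (show a ≤ c by omega)
  obtain ⟨-, b5, b6⟩ := fwd (i := j') hQ0 (show b ≤ c by omega)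
  refine hC.step hP0 hQ0 ?_ (by rw [a3, a6, s2]) (by rw [b3, b6, s1])
  have := congrFun (congrFun s3 ⟨_, a1⟩) ⟨_, b1⟩
  simp only [W] at this
  rw [a2, b2, a5, b5, ← s1, ← s2]
  have f : ∀ x y : ℕ, x + 1 + y - 1 = x + y := by intro x y; omega
  rwa [f, f, f, f] at this

end Pool.Agent.H.MP_bd4c56_lc
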